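import Mathlib
open Matrix Finset

namespace Pool.Agent.QRCP

/-- the Kahan rows -/
noncomputable def v (c s : ℝ) (j i : ℕ) : ℝ := if i < j then -c * s ^ i else if i = j then s ^ j else 0

lemma v_self (c s : ℝ) (j : ℕ) : v c s j j = s ^ j := by simp [v]
lemma v_gt (c s : ℝ) {j i : ℕ} (h : j < i) : v c s j i = 0 := by
  simp [v, h.not_gt, h.ne']

lemma sum_ite_lemma (k j : ℕ) (hj : j < k) (f : ℕ → ℝ) (g : ℝ) :
    ∑ i ∈ range k, (if i < j then f i else if i = j then g else 0) = ∑ i ∈ range j, f i + g := by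
  have h1 : ∑ i ∈ range k, (if i < j then f i else if i = j then g else 0)
      = ∑ i ∈ range (j + 1), (if i < j then f i else if i = j then g else 0) := by
    symm
    apply Finset.sum_subset
    · intro x hx; simp at *; omega
    · intro x hx hx2
      simp only [Finset.mem_range, not_lt] at *
      rw [if_neg (by omega), if_neg (by omega)]
  rw [h1, Finset.sum_range_succ]
  congr 1
  · apply Finset.sum_congr rfl
    intro x hx
    rw [if_pos (Finset.mem_range.1 hx)]
  · simp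

lemma trunc_norm (c s : ℝ) (hcs : c ^ 2 + s ^ 2 = 1) (k j r : ℕ) (hjr : j ≤ r) (hr : r < k) :
    ∑ i ∈ range k, (if i < j then 0 else v c s r i) ^ 2 = (s ^ j) ^ 2 := by
  have h1 : ∀ i, (if i < j then 0 else v c s r i) ^ 2 =
      (if i < r then (if i < j then 0 else c ^ 2 * (s ^ i) ^ 2) else if i = r then (s ^ r) ^ 2 else 0) := by
    intro i
    unfold v
    by_cases h1 : i < j
    · rw [if_pos h1, if_pos (by omega), if_pos h1]; ring
    · rw [if_neg h1]
      by_cases h2 : i < r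
      · rw [if_pos h2, if_pos h2, if_neg h1]; ring
      · rw [if_neg h2, if_neg h2]
        by_cases h3 : i = r
        · rw [if_pos h3, if_pos h3]
        · rw [if_neg h3, if_neg h3]; ring
  rw [Finset.sum_congr rfl (fun i _ => h1 i), sum_ite_lemma k r hr]
  clear h1 hr
  induction r, hjr using Nat.le_induction with
  | base =>
    rw [Finset.sum_eq_zero]
    · ring
    · intro i hi; rw [if_pos (Finset.mem_range.1 hi)]
  | succ r hr ih =>
    rw [Finset.sum_range_succ, if_neg (by omega)]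
    have : (s ^ (r + 1)) ^ 2 = (1 - c ^ 2) * (s ^ r) ^ 2 := by
      rw [← hcs]; ring
    rw [this]
    linarith

lemma full_norm (c s : ℝ) (hcs : c ^ 2 + s ^ 2 = 1) (k r : ℕ) (hr : r < k) :
    ∑ i ∈ range k, (v c s r i) ^ 2 = 1 := by
  have := trunc_norm c s hcs k 0 r (Nat.zero_le _) hr
  simpa using this

noncomputable def A (k : ℕ) (c s : ℝ) : Matrix (Fin k) (Fin k) ℝ := fun j i => v c s j i

lemma A_norm (k : ℕ) (c s : ℝ) (hcs : c ^ 2 + s ^ 2 = 1) (j : Fin k) : ∑ i, (A k c s j i) ^ 2 = 1 := by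
  have := full_norm c s hcs k j j.2
  rw [← Fin.sum_univ_eq_sum_range (fun i => (v c s j i) ^ 2) k] at this
  exact this

lemma psd (k : ℕ) (hk : 0 < k) (c s : ℝ) (hcs : c ^ 2 + s ^ 2 = 1) (a : ℝ) (ha : a ^ 2 = 1 / k) :
    (1 - a ^ 2 • ((A k c s)ᵀ * A k c s)).PosSemidef := by
  apply Matrix.PosSemidef.of_dotProduct_mulVec_nonneg
  · unfold Matrix.IsHermitian
    rw [Matrix.conjTranspose_sub, Matrix.conjTranspose_one, Matrix.conjTranspose_smul,
      Matrix.conjTranspose_eq_transpose_of_trivial, Matrix.transpose_mul, Matrix.transpose_transpose]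
    simp
  · intro x
    have hk' : (0 : ℝ) < k := by exact_mod_cast hk
    rw [Matrix.sub_mulVec, Matrix.one_mulVec, Matrix.smul_mulVec, dotProduct_sub, star_trivial,
      dotProduct_smul, ← Matrix.mulVec_mulVec, Matrix.dotProduct_mulVec, Matrix.vecMul_transpose]
    have h1 : (A k c s *ᵥ x) ⬝ᵥ (A k c s *ᵥ x) ≤ k * (x ⬝ᵥ x) := by
      have h2 : ∀ j, (A k c s *ᵥ x) j * (A k c s *ᵥ x) j ≤ x ⬝ᵥ x := by
        intro j
        have h3 := Finset.sum_mul_sq_le_sq_mul_sq Finset.univ (A k c s j) x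
        rw [A_norm k c s hcs j, one_mul] at h3
        have h4 : (A k c s *ᵥ x) j = ∑ i, A k c s j i * x i := rfl
        rw [h4, ← sq]
        refine h3.trans (le_of_eq ?_)
        unfold dotProduct
        apply Finset.sum_congr rfl
        intro i _; ring
      calc (A k c s *ᵥ x) ⬝ᵥ (A k c s *ᵥ x) = ∑ j, (A k c s *ᵥ x) j * (A k c s *ᵥ x) j := rfl
        _ ≤ ∑ j : Fin k, x ⬝ᵥ x := Finset.sum_le_sum fun j _ => h2 j
        _ = k * (x ⬝ᵥ x) := by simp
    rw [ha, smul_eq_mul]
    have : 1 / (k : ℝ) * ((A k c s *ᵥ x) ⬝ᵥ (A k c s *ᵥ x)) ≤ 1 / (k : ℝ) * (k * (x ⬝ᵥ x)) := by gcongr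
    have h5 : 1 / (k : ℝ) * (k * (x ⬝ᵥ x)) = x ⬝ᵥ x := by field_simp
    linarith

open scoped MatrixOrder ComplexOrder in
lemma exists_B (k : ℕ) (hk : 0 < k) (c s : ℝ) (hcs : c ^ 2 + s ^ 2 = 1) (a : ℝ) (ha : a ^ 2 = 1 / k) :
    ∃ B : Matrix (Fin k) (Fin k) ℝ, 1 - a ^ 2 • ((A k c s)ᵀ * A k c s) = Bᵀ * B := by
  obtain ⟨B, hB⟩ := CStarAlgebra.nonneg_iff_eq_star_mul_self.mp (psd k hk c s hcs a ha).nonneg
  refine ⟨B, ?_⟩
  rw [hB, Matrix.star_eq_conjTranspose, Matrix.conjTranspose_eq_transpose_of_trivial]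

section
variable (k t : ℕ) (c s a : ℝ) (B : Matrix (Fin k) (Fin k) ℝ)

noncomputable def Q : Matrix (Fin (k + k * t)) (Fin k) ℝ :=
  fun r => Fin.addCases (motive := fun _ => Fin k → ℝ) (fun j => a • A k c s j)
    (fun q => (1 / Real.sqrt t) • B (finProdFinEquiv.symm q).1) r

lemma Q_left (j : Fin k) : Q k t c s a B (Fin.castAdd _ j) = a • A k c s j := by
  simp [Q]

lemma Q_right (q : Fin (k * t)) : Q k t c s a B (Fin.natAdd _ q) = (1 / Real.sqrt t) • B (finProdFinEquiv.symm q).1 := by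
  simp [Q]

lemma Q_orth (ht : 0 < t) (hB : 1 - a ^ 2 • ((A k c s)ᵀ * A k c s) = Bᵀ * B) :
    (Q k t c s a B)ᵀ * Q k t c s a B = 1 := by
  have ht' : (0 : ℝ) < t := by exact_mod_cast ht
  have h1 : (1 : Matrix (Fin k) (Fin k) ℝ) = a ^ 2 • ((A k c s)ᵀ * A k c s) + Bᵀ * B := by
    rw [← hB]; abel
  rw [h1]
  ext i i'
  rw [Matrix.mul_apply, Matrix.add_apply, Matrix.smul_apply, Matrix.mul_apply, Matrix.mul_apply,
    Fin.sum_univ_add]
  congr 1
  · rw [smul_eq_mul, Finset.mul_sum]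
    apply Finset.sum_congr rfl
    intro j _
    rw [Matrix.transpose_apply, Q_left, Matrix.transpose_apply, Pi.smul_apply, Pi.smul_apply,
      smul_eq_mul, smul_eq_mul]
    ring
  · rw [← finProdFinEquiv.sum_comp, Fintype.sum_prod_type]
    apply Finset.sum_congr rfl
    intro j _
    rw [Matrix.transpose_apply]
    have : ∀ y : Fin t, (Q k t c s a B)ᵀ i (Fin.natAdd k (finProdFinEquiv (j, y))) *
        Q k t c s a B (Fin.natAdd k (finProdFinEquiv (j, y))) i' = (1 / t) * (B j i * B j i') := by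
      intro y
      rw [Matrix.transpose_apply, Q_right, Equiv.symm_apply_apply, Pi.smul_apply, Pi.smul_apply,
        smul_eq_mul, smul_eq_mul]
      have : (1 / Real.sqrt t) * (1 / Real.sqrt t) = 1 / t := by
        rw [div_mul_div_comm, Real.mul_self_sqrt ht'.le, one_mul]
      rw [← this]; ring
    rw [Finset.sum_congr rfl (fun y _ => this y), Finset.sum_const, Finset.card_univ,
      Fintype.card_fin, nsmul_eq_mul]
    field_simp

lemma B_norm (hB : 1 - a ^ 2 • ((A k c s)ᵀ * A k c s) = Bᵀ * B) (j : Fin k) :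
    ∑ i, (B j i) ^ 2 ≤ k := by
  have h1 : ∀ i, ∑ j, (B j i) ^ 2 ≤ 1 := by
    intro i
    have := congrFun (congrFun hB i) i
    rw [Matrix.sub_apply, Matrix.one_apply_eq, Matrix.smul_apply, Matrix.mul_apply,
      Matrix.mul_apply] at this
    have h2 : ∑ j, (B j i) ^ 2 = ∑ j, Bᵀ i j * B j i := by
      apply Finset.sum_congr rfl
      intro x _
      rw [Matrix.transpose_apply, sq]
    rw [h2, ← this]
    have h3 : 0 ≤ ∑ j, (A k c s)ᵀ i j * A k c s j i := by
      apply Finset.sum_nonneg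
      intro x _
      rw [Matrix.transpose_apply]
      exact mul_self_nonneg _
    have h4 : 0 ≤ a ^ 2 • ∑ j, (A k c s)ᵀ i j * A k c s j i := smul_nonneg (sq_nonneg a) h3
    linarith
  calc ∑ i, (B j i) ^ 2 ≤ ∑ i : Fin k, (1 : ℝ) := by
        apply Finset.sum_le_sum
        intro i _
        refine le_trans ?_ (h1 i)
        exact Finset.single_le_sum (f := fun j => (B j i) ^ 2) (fun x _ => sq_nonneg _) (Finset.mem_univ j)
    _ = k := by simp

/-- the span of the first rows -/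
noncomputable def Sp (j : ℕ) : Submodule ℝ (EuclideanSpace ℝ (Fin k)) :=
  Submodule.span ℝ ((fun i : Fin k => (WithLp.toLp 2 (a • A k c s i) : EuclideanSpace ℝ (Fin k))) ''
                  {i | i.val < j})

lemma Sp_mono {j j' : ℕ} (h : j ≤ j') : Sp k c s a j ≤ Sp k c s a j' := by
  apply Submodule.span_mono
  apply Set.image_mono
  intro i hi
  exact lt_of_lt_of_le hi h

lemma Sp_lower (j : ℕ) (y : EuclideanSpace ℝ (Fin k)) (hy : y ∈ Sp k c s a j) (i : Fin k) (hi : j ≤ i.val) :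
    y i = 0 := by
  induction hy using Submodule.span_induction with
  | mem x hx =>
    obtain ⟨r, hr, rfl⟩ := hx
    have hr' : r.val < j := hr
    change a * v c s r i = 0
    rw [v_gt c s (lt_of_lt_of_le hr' hi), mul_zero]
  | zero => rfl
  | add x y _ _ hx hy => rw [PiLp.add_apply, hx, hy, add_zero]
  | smul r x _ hx => rw [PiLp.smul_apply, hx, smul_zero]

lemma Sp_upper (ha : a ≠ 0) (hs : s ≠ 0) (j : ℕ) (hj : j ≤ k) (y : EuclideanSpace ℝ (Fin k))
    (hy : ∀ i : Fin k, j ≤ i.val → y i = 0) : y ∈ Sp k c s a j := by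
  induction j generalizing y with
  | zero =>
    have : y = 0 := by
      ext i; rw [hy i (Nat.zero_le _)]; rfl
    rw [this]; exact zero_mem _
  | succ j ih =>
    have hjk : j < k := hj
    set jj : Fin k := ⟨j, hjk⟩
    set w : EuclideanSpace ℝ (Fin k) := WithLp.toLp 2 (a • A k c s jj) with hw
    have hwi : ∀ i, w i = a * v c s j i := fun i => rfl
    have hwm : w ∈ Sp k c s a (j + 1) := by
      apply Submodule.subset_span
      exact ⟨jj, Nat.lt_succ_self j, rfl⟩
    set y' := y - (y jj / (a * s ^ j)) • w with hy'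
    have h1 : y' ∈ Sp k c s a j := by
      apply ih (by omega)
      intro i hi
      rw [hy', PiLp.sub_apply, PiLp.smul_apply, hwi, smul_eq_mul]
      rcases Nat.eq_or_lt_of_le hi with h | h
      · have : i = jj := Fin.ext h.symm
        rw [this]
        change y jj - y jj / (a * s ^ j) * (a * v c s j j) = 0
        rw [v_self]
        have : s ^ j ≠ 0 := pow_ne_zero _ hs
        field_simp
        ring
      · rw [hy i h, v_gt c s h]; ring
    have h2 : y = y' + (y jj / (a * s ^ j)) • w := by rw [hy']; abel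
    rw [h2]
    exact add_mem (Sp_mono k c s a (Nat.le_succ j) h1) (Submodule.smul_mem _ _ hwm)

lemma inf_lower (j : Fin k) (y : EuclideanSpace ℝ (Fin k)) :
    |y j| ≤ Metric.infDist y (Sp k c s a j : Set (EuclideanSpace ℝ (Fin k))) := by
  rw [Metric.le_infDist ⟨0, zero_mem _⟩]
  intro z hz
  have h1 := Sp_lower k c s a j z hz j le_rfl
  rw [dist_eq_norm]
  have h2 := PiLp.norm_apply_le (y - z) j
  rw [PiLp.sub_apply, h1, sub_zero] at h2
  exact h2

lemma inf_row (ha : 0 < a) (hs : 0 < s) (hcs : c ^ 2 + s ^ 2 = 1) (j r : Fin k) (hjr : j ≤ r) :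
    Metric.infDist (WithLp.toLp 2 (a • A k c s r) : EuclideanSpace ℝ (Fin k)) (Sp k c s a j : Set (EuclideanSpace ℝ (Fin k)))
      ≤ a * s ^ (j : ℕ) := by
  set z : EuclideanSpace ℝ (Fin k) := WithLp.toLp 2 (fun i : Fin k => if (i : ℕ) < j then a * v c s r i else 0) with hz
  have hzm : z ∈ Sp k c s a j := by
    apply Sp_upper k c s a ha.ne' hs.ne' j j.2.le
    intro i hi
    change (if (i : ℕ) < j then a * v c s r i else 0) = 0
    rw [if_neg (by omega)]
  refine (Metric.infDist_le_dist_of_mem hzm).trans ?_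
  rw [dist_eq_norm, EuclideanSpace.norm_eq]
  apply Real.sqrt_le_iff.2
  refine ⟨by positivity, ?_⟩
  have h1 : ∀ i : Fin k, ‖((WithLp.toLp 2 (a • A k c s r) : EuclideanSpace ℝ (Fin k)) - z) i‖ ^ 2 =
      a ^ 2 * (if (i : ℕ) < j then 0 else v c s r i) ^ 2 := by
    intro i
    rw [PiLp.sub_apply, Real.norm_eq_abs, sq_abs]
    change (a * v c s r i - (if (i : ℕ) < j then a * v c s r i else 0)) ^ 2 = _
    split_ifs <;> ring
  rw [Finset.sum_congr rfl (fun i _ => h1 i), ← Finset.mul_sum,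
    Fin.sum_univ_eq_sum_range (fun i => (if i < (j : ℕ) then 0 else v c s r i) ^ 2) k,
    trunc_norm c s hcs k j r hjr r.2, mul_pow]

end

/-- the solution vector -/
noncomputable def u (c : ℝ) (i : ℕ) : ℝ := if i = 0 then 1 else c * (1 + c) ^ (i - 1)

lemma u_sum (c : ℝ) (j : ℕ) : ∑ i ∈ range (j + 1), u c i = (1 + c) ^ j := by
  induction j with
  | zero => simp [u]
  | succ j ih =>
    rw [Finset.sum_range_succ, ih]
    simp only [u, Nat.add_eq_zero_iff, one_ne_zero, and_false, if_false, Nat.add_sub_cancel]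
    ring

noncomputable def X (k : ℕ) (c s : ℝ) (i : Fin k) : ℝ := u c i / s ^ (i : ℕ)

lemma A_X (k : ℕ) (c s : ℝ) (hs : s ≠ 0) (j : Fin k) :
    (A k c s *ᵥ X k c s) j = if (j : ℕ) = 0 then 1 else 0 := by
  have h0 : (A k c s *ᵥ X k c s) j = ∑ i : Fin k, v c s j i * (u c i / s ^ (i : ℕ)) := rfl
  rw [h0, Fin.sum_univ_eq_sum_range (fun i => v c s j i * (u c i / s ^ i)) k]
  have h1 : ∀ i, v c s j i * (u c i / s ^ i) =
      if i < (j : ℕ) then -c * u c i else if i = (j : ℕ) then u c j else 0 := by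
    intro i
    have : s ^ i ≠ 0 := pow_ne_zero _ hs
    unfold v
    split_ifs with h2 h3
    · field_simp
    · rw [← h3]; field_simp
    · ring
  rw [Finset.sum_congr rfl (fun i _ => h1 i), sum_ite_lemma k j j.2]
  rcases Nat.eq_zero_or_pos (j : ℕ) with h | h
  · rw [h]; simp [u]
  · obtain ⟨l, hl⟩ : ∃ l, (j : ℕ) = l + 1 := ⟨j - 1, by omega⟩
    rw [hl, ← Finset.mul_sum, u_sum, if_neg (by omega)]
    simp only [u, Nat.add_eq_zero_iff, one_ne_zero, and_false, if_false, Nat.add_sub_cancel]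
    ring

theorem bound (C : ℝ) (d : ℕ) (H : ∀ n k : ℕ, k < n →
      ∀ Q : Matrix (Fin n) (Fin k) ℝ, Qᵀ * Q = 1 →
      ∀ σ : Fin k → Fin n,
        (∀ j : Fin k, ∀ r : Fin n,
          Metric.infDist (WithLp.toLp 2 (Q r) : EuclideanSpace ℝ (Fin k))
              (Submodule.span ℝ
                ((fun i : Fin k => (WithLp.toLp 2 (Q (σ i)) : EuclideanSpace ℝ (Fin k))) ''
                  {i | i < j}) : Set (EuclideanSpace ℝ (Fin k)))
            ≤ Metric.infDist (WithLp.toLp 2 (Q (σ j)) : EuclideanSpace ℝ (Fin k))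
              (Submodule.span ℝ
                ((fun i : Fin k => (WithLp.toLp 2 (Q (σ i)) : EuclideanSpace ℝ (Fin k))) ''
                  {i | i < j}) : Set (EuclideanSpace ℝ (Fin k)))) →
        (∀ j : Fin k, ∀ r : Fin n, r < σ j →
          Metric.infDist (WithLp.toLp 2 (Q r) : EuclideanSpace ℝ (Fin k))
              (Submodule.span ℝ
                ((fun i : Fin k => (WithLp.toLp 2 (Q (σ i)) : EuclideanSpace ℝ (Fin k))) ''
                  {i | i < j}) : Set (EuclideanSpace ℝ (Fin k)))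
            < Metric.infDist (WithLp.toLp 2 (Q (σ j)) : EuclideanSpace ℝ (Fin k))
              (Submodule.span ℝ
                ((fun i : Fin k => (WithLp.toLp 2 (Q (σ i)) : EuclideanSpace ℝ (Fin k))) ''
                  {i | i < j}) : Set (EuclideanSpace ℝ (Fin k)))) →
        ∀ x : Fin k → ℝ,
          ‖(WithLp.toLp 2 x : EuclideanSpace ℝ (Fin k))‖ ≤
            C * (n : ℝ) ^ d *
              ‖(WithLp.toLp 2 ((Q.submatrix σ id) *ᵥ x) : EuclideanSpace ℝ (Fin k))‖)
    (m : ℕ) (hm : 1 ≤ m) : (2 : ℝ) ^ m ≤ 8 * m * |C| * (18 * m ^ 6) ^ d := by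
  set k : ℕ := 2 * m ^ 2 with hk
  have hm2 : 1 ≤ m ^ 2 := Nat.one_le_pow _ _ hm
  have hk2 : 2 ≤ k := by omega
  set t : ℕ := 2 * k ^ 2 with ht
  have hkt : 0 < k ^ 2 := by positivity
  have ht0 : 0 < t := by omega
  have hmR : (1 : ℝ) ≤ m := by exact_mod_cast hm
  set c : ℝ := 1 / (2 * m) with hc
  have hc0 : 0 < c := by positivity
  have hc1 : c ≤ 1 / 2 := by
    rw [hc]; apply one_div_le_one_div_of_le <;> linarith
  have hc2 : c ^ 2 < 1 := by nlinarith
  set s : ℝ := Real.sqrt (1 - c ^ 2) with hs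
  have hs0 : 0 < s := Real.sqrt_pos.2 (by linarith)
  have hs2 : s ^ 2 = 1 - c ^ 2 := Real.sq_sqrt (by linarith)
  have hcs : c ^ 2 + s ^ 2 = 1 := by rw [hs2]; ring
  have hs1 : s ≤ 1 := by
    have : s ^ 2 ≤ 1 := by rw [hs2]; nlinarith
    nlinarith
  have hkR : (k : ℝ) = 2 * m ^ 2 := by rw [hk]; push_cast; ring
  have hkR0 : (0 : ℝ) < k := by rw [hkR]; positivity
  have htR : (t : ℝ) = 2 * k ^ 2 := by rw [ht]; push_cast; ring
  have hsk : 1 / 2 ≤ (s ^ k) ^ 2 := by
    have h1 : (s ^ k) ^ 2 = (1 + (-c ^ 2)) ^ k := by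
      rw [← pow_mul, mul_comm, pow_mul, hs2]; ring
    rw [h1]
    refine le_trans ?_ (one_add_mul_le_pow (by nlinarith) k)
    rw [hkR, hc]
    field_simp
    norm_num
  have hsj : ∀ j, j ≤ k → 1 / 2 ≤ (s ^ j) ^ 2 := by
    intro j hj
    refine hsk.trans ?_
    have := pow_le_pow_of_le_one hs0.le hs1 hj
    have h0 : 0 ≤ s ^ k := by positivity
    nlinarith
  set a : ℝ := Real.sqrt (1 / k) with ha
  have ha0 : 0 < a := Real.sqrt_pos.2 (by positivity)
  have ha2 : a ^ 2 = 1 / k := Real.sq_sqrt (by positivity)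
  have ha1 : a ≤ 1 := by
    have : a ^ 2 ≤ 1 := by
      rw [ha2, div_le_one hkR0]
      have : (2 : ℝ) ≤ k := by exact_mod_cast hk2
      linarith
    nlinarith
  obtain ⟨B, hB⟩ := exists_B k (by omega) c s hcs a ha2
  have hspan : ∀ j : Fin k, (Submodule.span ℝ
                ((fun i : Fin k => (WithLp.toLp 2 (Q k t c s a B (Fin.castAdd (k * t) i)) : EuclideanSpace ℝ (Fin k))) ''
                  {i | i < j})) = Sp k c s a j := by
    intro j
    unfold Sp
    congr 1
    apply Set.image_congr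
    intro i _
    rw [Q_left]
  have hsel : ∀ j : Fin k, a * s ^ (j : ℕ) ≤ Metric.infDist (WithLp.toLp 2 (Q k t c s a B (Fin.castAdd (k * t) j)) : EuclideanSpace ℝ (Fin k)) (Sp k c s a j : Set (EuclideanSpace ℝ (Fin k))) := by
    intro j
    refine le_trans ?_ (inf_lower k c s a j _)
    rw [Q_left]
    change _ ≤ |a * v c s j j|
    rw [v_self]
    exact le_abs_self _
  have main := H (k + k * t) k (by have : 0 < k * t := by positivity
                                   omega) (Q k t c s a B) (Q_orth k t c s a B ht0 hB)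
    (fun j => Fin.castAdd (k * t) j) ?_ ?_ (X k c s)
  · -- conclude
    have h1 : (Q k t c s a B).submatrix (fun j => Fin.castAdd (k * t) j) id *ᵥ X k c s = fun j : Fin k => a * (if (j : ℕ) = 0 then 1 else 0) := by
      ext j
      rw [← A_X k c s hs0.ne' j]
      have : ((Q k t c s a B).submatrix (fun j => Fin.castAdd (k * t) j) id *ᵥ X k c s) j
          = ∑ i, (Q k t c s a B (Fin.castAdd (k * t) j)) i * X k c s i := rfl
      rw [this, Q_left]
      have h2 : (A k c s *ᵥ X k c s) j = ∑ i, A k c s j i * X k c s i := rfl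
      rw [h2, Finset.mul_sum]
      apply Finset.sum_congr rfl
      intro i _
      rw [Pi.smul_apply, smul_eq_mul]; ring
    rw [h1] at main
    have h2 : ‖(WithLp.toLp 2 (fun j : Fin k => a * (if (j : ℕ) = 0 then 1 else 0)) : EuclideanSpace ℝ (Fin k))‖ ≤ 1 := by
      rw [EuclideanSpace.norm_eq]
      apply Real.sqrt_le_one.2
      have : ∀ j : Fin k, ‖(WithLp.toLp 2 (fun j : Fin k => a * (if (j : ℕ) = 0 then 1 else 0)) : EuclideanSpace ℝ (Fin k)) j‖ ^ 2 = if j = ⟨0, by omega⟩ then a ^ 2 else 0 := by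
        intro j
        change ‖a * (if (j : ℕ) = 0 then 1 else 0)‖ ^ 2 = _
        rw [Real.norm_eq_abs, sq_abs]
        by_cases hj : (j : ℕ) = 0
        · rw [if_pos hj, if_pos (Fin.ext hj)]; ring
        · rw [if_neg hj, if_neg (fun h => hj (by rw [h]))]; ring
      rw [Finset.sum_congr rfl (fun j _ => this j), Finset.sum_ite_eq' Finset.univ, if_pos (Finset.mem_univ _)]
      nlinarith
    have hkm : k - 1 < k := by omega
    have h3 := PiLp.norm_apply_le (WithLp.toLp 2 (X k c s) : EuclideanSpace ℝ (Fin k)) ⟨k - 1, hkm⟩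
    have h4 : c * (1 + c) ^ (k - 2) ≤ ‖(WithLp.toLp 2 (X k c s) : EuclideanSpace ℝ (Fin k)) ⟨k - 1, hkm⟩‖ := by
      change _ ≤ ‖u c (k - 1) / s ^ (k - 1)‖
      have h5 : u c (k - 1) = c * (1 + c) ^ (k - 2) := by
        unfold u
        rw [if_neg (by omega)]
        congr 2
      rw [h5, Real.norm_of_nonneg (by positivity), le_div_iff₀ (by positivity)]
      have : s ^ (k - 1) ≤ 1 := pow_le_one₀ hs0.le hs1
      have h6 : 0 ≤ c * (1 + c) ^ (k - 2) := by positivity
      nlinarith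
    have h7 : c * (1 + c) ^ (k - 2) ≤ |C| * ((k + k * t : ℕ) : ℝ) ^ d := by
      refine (h4.trans h3).trans (main.trans ?_)
      have h8 : C * ((k + k * t : ℕ) : ℝ) ^ d ≤ |C| * ((k + k * t : ℕ) : ℝ) ^ d := by
        have := le_abs_self C
        gcongr
      have h9 : 0 ≤ |C| * ((k + k * t : ℕ) : ℝ) ^ d := by positivity
      calc _ ≤ |C| * ((k + k * t : ℕ) : ℝ) ^ d * ‖(WithLp.toLp 2 (fun j : Fin k => a * (if (j : ℕ) = 0 then 1 else 0)) : EuclideanSpace ℝ (Fin k))‖ := by gcongr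
        _ ≤ |C| * ((k + k * t : ℕ) : ℝ) ^ d * 1 := by gcongr
        _ = _ := by ring
    have h10 : ((k + k * t : ℕ) : ℝ) ≤ 18 * m ^ 6 := by
      push_cast
      rw [htR, hkR]
      have : (m : ℝ) ^ 2 ≤ m ^ 6 := pow_le_pow_right₀ hmR (by norm_num)
      nlinarith
    have h11 : (2 : ℝ) ^ m ≤ (1 + c) ^ k := by
      have e1 : k = (2 * m) * m := by rw [hk]; ring
      rw [e1, pow_mul]
      gcongr
      refine le_trans ?_ (one_add_mul_le_pow (by linarith) (2 * m))
      rw [hc]; push_cast; field_simp; norm_num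
    have h12 : (1 + c) ^ k = (1 + c) ^ (k - 2) * (1 + c) ^ 2 := by
      rw [← pow_add]; congr 1; omega
    have h13 : (1 + c) ^ 2 ≤ 4 := by nlinarith
    have h14 : (0:ℝ) ≤ (1 + c) ^ (k - 2) := by positivity
    have h15 : (2 : ℝ) ^ m ≤ 4 * (1 + c) ^ (k - 2) := by
      rw [h12] at h11; nlinarith
    have h16 : (1 + c) ^ (k - 2) = 2 * m * (c * (1 + c) ^ (k - 2)) := by
      rw [hc]; field_simp
    calc (2 : ℝ) ^ m ≤ 4 * (1 + c) ^ (k - 2) := h15
      _ = 8 * m * (c * (1 + c) ^ (k - 2)) := by linear_combination 4 * h16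
      _ ≤ 8 * m * (|C| * ((k + k * t : ℕ) : ℝ) ^ d) := by gcongr
      _ ≤ 8 * m * (|C| * (18 * m ^ 6) ^ d) := by gcongr
      _ = _ := by ring
  · -- greedy
    intro j r
    rw [hspan j]
    refine le_trans ?_ (hsel j)
    induction r using Fin.addCases with
    | left r =>
      rw [Q_left]
      rcases lt_or_ge r j with h | h
      · have : (WithLp.toLp 2 (a • A k c s r) : EuclideanSpace ℝ (Fin k)) ∈ Sp k c s a j := by
          apply Submodule.subset_span
          exact ⟨r, h, rfl⟩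
        have h2 := Metric.infDist_zero_of_mem (s := (Sp k c s a j : Set (EuclideanSpace ℝ (Fin k)))) this
        rw [h2]; positivity
      · exact inf_row k c s a ha0 hs0 hcs j r h
    | right q =>
      rw [Q_right]
      refine (Metric.infDist_le_dist_of_mem (zero_mem (Sp k c s a j))).trans ?_
      rw [dist_zero_right, EuclideanSpace.norm_eq]
      apply Real.sqrt_le_iff.2
      refine ⟨by positivity, ?_⟩
      have h1 : ∀ i : Fin k, ‖(WithLp.toLp 2 ((1 / Real.sqrt t) • B (finProdFinEquiv.symm q).1) : EuclideanSpace ℝ (Fin k)) i‖ ^ 2 = (1 / t) * (B (finProdFinEquiv.symm q).1 i) ^ 2 := by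
        intro i
        change ‖(1 / Real.sqrt t) * B (finProdFinEquiv.symm q).1 i‖ ^ 2 = _
        rw [Real.norm_eq_abs, sq_abs, mul_pow, div_pow, Real.sq_sqrt (by positivity)]
        ring
      rw [Finset.sum_congr rfl (fun i _ => h1 i), ← Finset.mul_sum]
      have h2 := B_norm k c s a B hB (finProdFinEquiv.symm q).1
      calc (1 / (t : ℝ)) * ∑ i, (B (finProdFinEquiv.symm q).1 i) ^ 2 ≤ (1 / (t : ℝ)) * k := by gcongr
        _ = (1 / k) * (1 / 2) := by rw [htR]; field_simp
        _ ≤ (1 / k) * (s ^ (j : ℕ)) ^ 2 := by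
          have := hsj j j.2.le
          gcongr
        _ = (a * s ^ (j : ℕ)) ^ 2 := by rw [mul_pow, ha2]
  · intro j r hr
    rw [hspan j]
    refine lt_of_lt_of_le ?_ (hsel j)
    induction r using Fin.addCases with
    | left r =>
      have h : r < j := by
        have : (Fin.castAdd (k * t) r).val < (Fin.castAdd (k * t) j).val := hr
        exact this
      rw [Q_left]
      have : (WithLp.toLp 2 (a • A k c s r) : EuclideanSpace ℝ (Fin k)) ∈ Sp k c s a j := by
        apply Submodule.subset_span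
        exact ⟨r, h, rfl⟩
      have h2 := Metric.infDist_zero_of_mem (s := (Sp k c s a j : Set (EuclideanSpace ℝ (Fin k)))) this
      rw [h2]; positivity
    | right q =>
      exfalso
      have : (Fin.natAdd k q).val < (Fin.castAdd (k * t) j).val := hr
      simp at this
      omega

theorem main :
    ¬ (∃ C : ℝ, ∃ d : ℕ, ∀ n k : ℕ, k < n →
      ∀ Q : Matrix (Fin n) (Fin k) ℝ, Qᵀ * Q = 1 →
      ∀ σ : Fin k → Fin n,
        (∀ j : Fin k, ∀ r : Fin n,
          Metric.infDist (WithLp.toLp 2 (Q r) : EuclideanSpace ℝ (Fin k))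
              (Submodule.span ℝ
                ((fun i : Fin k => (WithLp.toLp 2 (Q (σ i)) : EuclideanSpace ℝ (Fin k))) ''
                  {i | i < j}) : Set (EuclideanSpace ℝ (Fin k)))
            ≤ Metric.infDist (WithLp.toLp 2 (Q (σ j)) : EuclideanSpace ℝ (Fin k))
              (Submodule.span ℝ
                ((fun i : Fin k => (WithLp.toLp 2 (Q (σ i)) : EuclideanSpace ℝ (Fin k))) ''
                  {i | i < j}) : Set (EuclideanSpace ℝ (Fin k)))) →
        (∀ j : Fin k, ∀ r : Fin n, r < σ j →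
          Metric.infDist (WithLp.toLp 2 (Q r) : EuclideanSpace ℝ (Fin k))
              (Submodule.span ℝ
                ((fun i : Fin k => (WithLp.toLp 2 (Q (σ i)) : EuclideanSpace ℝ (Fin k))) ''
                  {i | i < j}) : Set (EuclideanSpace ℝ (Fin k)))
            < Metric.infDist (WithLp.toLp 2 (Q (σ j)) : EuclideanSpace ℝ (Fin k))
              (Submodule.span ℝ
                ((fun i : Fin k => (WithLp.toLp 2 (Q (σ i)) : EuclideanSpace ℝ (Fin k))) ''
                  {i | i < j}) : Set (EuclideanSpace ℝ (Fin k)))) →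
        ∀ x : Fin k → ℝ,
          ‖(WithLp.toLp 2 x : EuclideanSpace ℝ (Fin k))‖ ≤
            C * (n : ℝ) ^ d *
              ‖(WithLp.toLp 2 ((Q.submatrix σ id) *ᵥ x) : EuclideanSpace ℝ (Fin k))‖) := by
  rintro ⟨C, d, H⟩
  have h1 := bound C d H
  have h2 := tendsto_pow_const_div_const_pow_of_one_lt (6 * d + 1) (r := (2 : ℝ)) (by norm_num)
  set D : ℝ := 8 * |C| * 18 ^ d + 1 with hD
  have hD0 : 0 < D := by positivity
  have h3 := (h2.eventually (gt_mem_nhds (show (0 : ℝ) < 1 / D by positivity))).and (Filter.eventually_ge_atTop 1)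
  obtain ⟨m, hm, hm1⟩ := h3.exists
  have h4 := h1 m hm1
  have hp : (0 : ℝ) < 2 ^ m := by positivity
  rw [div_lt_div_iff₀ hp hD0, one_mul] at hm
  have h5 : 8 * (m : ℝ) * |C| * (18 * m ^ 6) ^ d = (8 * |C| * 18 ^ d) * m ^ (6 * d + 1) := by
    have : ((m : ℝ) ^ 6) ^ d = (m : ℝ) ^ (6 * d) := by rw [← pow_mul]
    rw [mul_pow, this, pow_succ]; ring
  rw [h5] at h4
  have h6 : (0 : ℝ) ≤ (m : ℝ) ^ (6 * d + 1) := by positivity
  have h7 : (m : ℝ) ^ (6 * d + 1) * D = (8 * |C| * 18 ^ d) * m ^ (6 * d + 1) + m ^ (6 * d + 1) := by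
    rw [hD]; ring
  linarith

end Pool.Agent.QRCP
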